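import Pool.Agent.E8helper39.WW.Stm

/-! Project WW, piece DIV: a vector field `W` of forms with `det (p, y, W y) = 0` is `a p + b y`. -/

set_option autoImplicit false

open MvPolynomial

namespace WW39

namespace DivH10

theorem comp_mul (L b : Pol) (hL : L.IsHomogeneous 1) (n : ℕ) :
    homogeneousComponent (n + 1) (L * b) = L * homogeneousComponent n b := by
  conv_lhs => rw [← sum_homogeneousComponent b, Finset.mul_sum, map_sum]
  have h : ∀ i ∈ Finset.range (b.totalDegree + 1),
      homogeneousComponent (n + 1) (L * homogeneousComponent i b) =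
        if i = n then L * homogeneousComponent i b else 0 := by
    intro i _
    rw [homogeneousComponent_of_mem (hL.mul (homogeneousComponent_isHomogeneous i b))]
    by_cases h : i = n
    · subst h
      rw [if_pos rfl, if_pos (by ring)]
    · rw [if_neg h, if_neg (by omega)]
  rw [Finset.sum_congr rfl h, Finset.sum_ite_eq']
  split_ifs with h1
  · rfl
  · rw [homogeneousComponent_eq_zero, mul_zero]
    rw [Finset.mem_range] at h1
    omega

/-- the linear form `p i X r - p r X i` -/
noncomputable def lf (p : Fin 3 → ℝ) (i r : Fin 3) : Pol := C (p i) * X r - C (p r) * X i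

theorem lf_hom (p : Fin 3 → ℝ) (i r : Fin 3) : (lf p i r).IsHomogeneous 1 := by
  unfold lf
  exact ((isHomogeneous_X ℝ r).C_mul (p i)).sub ((isHomogeneous_X ℝ i).C_mul (p r))

theorem lf_ne (p : Fin 3 → ℝ) (i r : Fin 3) (hp : p i ≠ 0) (h : r ≠ i) : lf p i r ≠ 0 := by
  intro h0
  have h1 := congrArg (eval (Pi.single r (1 : ℝ))) h0
  simp only [lf, map_sub, map_mul, eval_C, eval_X, map_zero, Pi.single_eq_same,
    Pi.single_eq_of_ne h.symm] at h1
  apply hp
  linarith

theorem lf_prime (p : Fin 3 → ℝ) (i r : Fin 3) (hp : p i ≠ 0) (h : r ≠ i) :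
    Prime (lf p i r) := by
  apply Irreducible.prime
  apply irreducible_of_totalDegree_eq_one
  · exact (lf_hom p i r).totalDegree (lf_ne p i r hp h)
  · intro x hx
    by_contra hu
    have x0 : x = 0 := by
      by_contra h0
      exact hu (isUnit_iff_ne_zero.2 h0)
    apply lf_ne p i r hp h
    ext m
    have h1 := hx m
    rw [x0, zero_dvd_iff] at h1
    rw [coeff_zero]
    exact h1

theorem key (n : ℕ) (p : Fin 3 → ℝ) (W : Fin 3 → Pol) (i r s : Fin 3) (hp : p i ≠ 0)
    (hr : r ≠ i) (hs : s ≠ i) (hrs : r ≠ s) (hW : ∀ j, (W j).IsHomogeneous (n + 1))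
    (h : ∀ y : Fin 3 → ℝ, (p i * y r - p r * y i) * (p i * eval y (W s) - p s * eval y (W i)) =
      (p i * y s - p s * y i) * (p i * eval y (W r) - p r * eval y (W i)))
    (hall : ∀ j : Fin 3, j = i ∨ j = r ∨ j = s) :
    ∃ a b : Pol, a.IsHomogeneous (n + 1) ∧ b.IsHomogeneous n ∧ ∀ (y : Fin 3 → ℝ) (j : Fin 3),
      eval y (W j) = eval y a * p j + eval y b * y j := by
  have hpoly : lf p i r * (C (p i) * W s - C (p s) * W i) =
      lf p i s * (C (p i) * W r - C (p r) * W i) := by
    apply MvPolynomial.funext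
    intro y
    simp only [lf, map_sub, map_mul, eval_C, eval_X]
    exact h y
  have hpr := lf_prime p i r hp hr
  have hdvd : lf p i r ∣ (C (p i) * W r - C (p r) * W i) := by
    have h1 : lf p i r ∣ lf p i s * (C (p i) * W r - C (p r) * W i) := ⟨_, hpoly.symm⟩
    rcases hpr.dvd_or_dvd h1 with h2 | h2
    · exfalso
      obtain ⟨c, hc⟩ := h2
      have h3 := congrArg (eval (Pi.single s (1 : ℝ))) hc
      simp only [lf, map_sub, map_mul, eval_C, eval_X, Pi.single_eq_same,
        Pi.single_eq_of_ne hs.symm, Pi.single_eq_of_ne hrs] at h3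
      apply hp
      linarith
    · exact h2
  obtain ⟨b0, hb0⟩ := hdvd
  have hom : (C (p i) * W r - C (p r) * W i).IsHomogeneous (n + 1) :=
    ((hW r).C_mul _).sub ((hW i).C_mul _)
  obtain ⟨b, hb⟩ : ∃ b, b = homogeneousComponent n b0 := ⟨_, rfl⟩
  have hbhom : b.IsHomogeneous n := by
    rw [hb]
    exact homogeneousComponent_isHomogeneous n b0
  have hbr : C (p i) * W r - C (p r) * W i = lf p i r * b := by
    have h1 := congrArg (homogeneousComponent (n + 1)) hb0
    rw [comp_mul _ _ (lf_hom p i r), homogeneousComponent_eq_self hom] at h1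
    rw [h1, hb]
  have hbs : C (p i) * W s - C (p s) * W i = lf p i s * b := by
    apply mul_left_cancel₀ hpr.ne_zero
    rw [hpoly, hbr]
    ring
  refine ⟨C (p i)⁻¹ * (W i - b * X i), b, ?_, hbhom, ?_⟩
  · exact ((hW i).sub (hbhom.mul (isHomogeneous_X ℝ i))).C_mul _
  · intro y j
    have e1 := congrArg (eval y) hbr
    have e2 := congrArg (eval y) hbs
    simp only [lf, map_sub, map_mul, eval_C, eval_X] at e1 e2 ⊢
    rcases hall j with rfl | rfl | rfl
    · field_simp
      ring
    · field_simp
      linear_combination e1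
    · field_simp
      linear_combination e2

end DivH10

open DivH10 in
/-- **DIV.** -/
theorem t_DIV : S_DIV := by
  intro n p W hp hW h
  have h' : ∀ y : Fin 3 → ℝ, p 0 * (y 1 * eval y (W 2) - y 2 * eval y (W 1)) -
      p 1 * (y 0 * eval y (W 2) - y 2 * eval y (W 0)) +
      p 2 * (y 0 * eval y (W 1) - y 1 * eval y (W 0)) = 0 := fun y => h y
  obtain ⟨i, hi⟩ : ∃ i, p i ≠ 0 := by
    by_contra hc
    push Not at hc
    exact hp (funext hc)
  fin_cases i
  · refine key n p W 0 1 2 hi (by decide) (by decide) (by decide) hW (fun y => ?_) (by decide)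
    linear_combination (p 0) * h' y
  · refine key n p W 1 0 2 hi (by decide) (by decide) (by decide) hW (fun y => ?_) (by decide)
    linear_combination -(p 1) * h' y
  · refine key n p W 2 0 1 hi (by decide) (by decide) (by decide) hW (fun y => ?_) (by decide)
    linear_combination (p 2) * h' y

end WW39
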